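import Pool.Agent.X172.GR.Stm

set_option autoImplicit false

namespace Pool.Agent.X96.GRC

open Pool.Agent.X172.GR

variable {n : ℕ} {T : ℕ → Fin 6}

theorem rd_append (T : ℕ → Fin 6) : ∀ (u w : List Ltr) (i : ℕ),
    Rd T i (u ++ w) ↔ Rd T i u ∧ Rd T (i + u.length) w
  | [], w, i => by simp [Rd]
  | a :: u, w, i => by
      simp only [List.cons_append, Rd, List.length_cons]
      rw [rd_append T u w (i+1)]
      have : i + 1 + u.length = i + (u.length + 1) := by omega
      rw [this]; tauto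

theorem rd_per (hT : ∀ i, T (i + n) = T i) : ∀ (w : List Ltr) (i : ℕ),
    Rd T (i + n) w ↔ Rd T i w
  | [], i => by simp [Rd]
  | a :: w, i => by
      simp only [Rd]
      rw [hT, show i + n + 1 = (i + 1) + n by omega, rd_per hT w (i+1)]

def wf (T : ℕ → Fin 6) (i : ℕ) (b : ℕ → Bool) (k : ℕ) : List Ltr :=
  (List.range k).map fun j => (T (i + j), b j)

theorem wf_len (i : ℕ) (b : ℕ → Bool) (k : ℕ) : (wf T i b k).length = k := by simp [wf]

theorem wf_rd (i : ℕ) (b : ℕ → Bool) (k : ℕ) : Rd T i (wf T i b k) := by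
  induction k with
  | zero => simp [wf, Rd]
  | succ k ih =>
    have : wf T i b (k+1) = wf T i b k ++ [(T (i + k), b k)] := by
      simp [wf, List.range_succ]
    rw [this, rd_append]
    exact ⟨ih, by simp [Rd, wf_len]⟩

theorem wf_bit (i : ℕ) (b : ℕ → Bool) (k j : ℕ) :
    bit (wf T i b k) j = if j < k then b j else false := by
  unfold bit wf
  by_cases h : j < k
  · simp [List.getD, h]
  · simp [List.getD, h]

theorem rd_ne (hT : ∀ i, T i ≠ 5) : ∀ (w : List Ltr) (i : ℕ), Rd T i w → ∀ a ∈ w, a.1 ≠ 5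
  | [], i, _, a, h => by simp at h
  | b :: w, i, ⟨h1, h2⟩, a, h => by
      rcases List.mem_cons.1 h with h | h
      · subst h; rw [h1]; exact hT i
      · exact rd_ne hT w (i+1) h2 a h

theorem readable_suffix {u w : List Ltr} (h : u <:+ w) (hw : Readable T w) : Readable T u := by
  obtain ⟨y, rfl⟩ := h
  obtain ⟨i, hi⟩ := hw
  exact ⟨i + y.length, ((rd_append T y u i).1 hi).2⟩

theorem suf_of_common {w u q : List Ltr} {a : Ltr} {m : ℕ} {z : List Ltr}
    (h : Suf n T w (some a) m z) (h1 : q <:+ w) (h2 : q <:+ u) (hq : ¬ Readable T q) :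
    Suf n T u (some a) m z := by
  obtain ⟨v, hv, hl, hm, hz, hzl, h⟩ := h
  refine ⟨v, hv, hl, hm, hz, hzl, Or.inr ?_⟩
  rcases h with ⟨h, _⟩ | ⟨a', y, ha, hw, hu⟩
  · cases h
  · obtain rfl : a = a' := by simpa using ha
    have hs : (a :: v) <:+ w := ⟨y, by rw [hw]⟩
    have : (a :: v) <:+ q := by
      rcases List.suffix_or_suffix_of_suffix hs h1 with h | h
      · exact h
      · rcases List.suffix_cons_iff.1 h with h | h
        · rw [h]
        · exact absurd (readable_suffix h hv) hq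
    obtain ⟨y', hy'⟩ := this.trans h2
    exact ⟨a, y', rfl, hy'.symm, hu⟩

/-- inequivalence from different data -/
theorem not_re {w u : List Ltr} {a : Ltr} {m m' : ℕ} {z z' : List Ltr}
    (U : ∀ w h m z h' m' z', Suf n T w h m z → Suf n T w h' m' z' → h = h' ∧ m = m' ∧ z = z')
    (h : Suf n T w (some a) m z) (h' : Suf n T u (some a) m' z') (hm : m ≠ m') :
    ¬ RE n T w u := by
  rintro (e | ⟨q, h1, h2, hq⟩ | ⟨h0, m0, z0, z0', s1, s2, -⟩)
  · subst e
    exact hm (U _ _ _ _ _ _ _ h h').2.1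
  · exact hm (U _ _ _ _ _ _ _ (suf_of_common h h1 h2 hq) h').2.1
  · exact hm ((U _ _ _ _ _ _ _ h s1).2.1.trans (U _ _ _ _ _ _ _ s2 h').2.1)

theorem not_re' {w u : List Ltr} {m m' : ℕ} {z z' : List Ltr}
    (U : ∀ w h m z h' m' z', Suf n T w h m z → Suf n T w h' m' z' → h = h' ∧ m = m' ∧ z = z')
    (hw : Readable T w)
    (h : Suf n T w none m z) (h' : Suf n T u none m' z') (hm : z ≠ z') :
    ¬ RE n T w u := by
  rintro (e | ⟨q, h1, h2, hq⟩ | ⟨h0, m0, z0, z0', s1, s2, hz⟩)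
  · subst e
    exact hm (U _ _ _ _ _ _ _ h h').2.2
  · exact hq (readable_suffix h1 hw)
  · have e1 := U _ _ _ _ _ _ _ h s1
    have e2 := U _ _ _ _ _ _ _ s2 h'
    rcases hz with hz | ⟨hz, -⟩
    · exact hm (e1.2.2.trans (hz.trans e2.2.2))
    · rw [← e1.1] at hz; cases hz

def bt (b : Bool) (u j : ℕ) : Bool := if j = 0 then b else decide (j < u)

def Z (n : ℕ) (T : ℕ → Fin 6) (b : Bool) (u : ℕ) : List Ltr := wf T 0 (bt b u) n

def w0 (n : ℕ) (T : ℕ → Fin 6) : List Ltr := wf T 0 (fun _ => false) n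

def cc (n : ℕ) (T : ℕ → Fin 6) (m : ℕ) : List Ltr := wf T (n - m) (fun _ => false) m

def mm (n a : ℕ) : ℕ := (n - a) % n

def S (n : ℕ) (T : ℕ → Fin 6) (b : Bool) (u : ℕ) : List Ltr := w0 n T ++ Z n T b u

def K (n : ℕ) (T : ℕ → Fin 6) (b : Bool) (u a : ℕ) : List Ltr :=
  w0 n T ++ (5, true) :: (cc n T (mm n a) ++ Z n T b u)

theorem mm_lt {a : ℕ} (hn : 4 ≤ n) : mm n a < n := Nat.mod_lt _ (by omega)

theorem mm_inv {a : ℕ} (hn : 4 ≤ n) (ha : a < n) : (n - mm n a) % n = a := by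
  unfold mm
  rcases Nat.eq_zero_or_pos a with h | h
  · subst h; simp
  · rw [Nat.mod_eq_of_lt (show n - a < n by omega)]
    rw [show n - (n - a) = a by omega]
    exact Nat.mod_eq_of_lt ha

theorem Z_len (b : Bool) (u : ℕ) : (Z n T b u).length = n := wf_len _ _ _

theorem w0_len : (w0 n T).length = n := wf_len _ _ _

theorem cc_len (m : ℕ) : (cc n T m).length = m := wf_len _ _ _

theorem Z_rd (b : Bool) (u : ℕ) : Rd T 0 (Z n T b u) := wf_rd _ _ _

theorem S_rd (hT : ∀ i, T (i + n) = T i) (b : Bool) (u : ℕ) : Rd T 0 (S n T b u) := by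
  unfold S
  rw [rd_append, w0_len]
  exact ⟨wf_rd _ _ _, (rd_per hT _ 0).2 (Z_rd b u)⟩

theorem v_rd (hT : ∀ i, T (i + n) = T i) (b : Bool) (u m : ℕ) (hm : m < n) :
    Rd T (n - m) (cc n T m ++ Z n T b u) := by
  rw [rd_append, cc_len]
  refine ⟨wf_rd _ _ _, ?_⟩
  rw [show n - m + m = 0 + n by omega]
  exact (rd_per hT _ 0).2 (Z_rd b u)

/-- the data of a word `x ++ $ :: v` -/
theorem suf_mk (hT5 : ∀ i, T i ≠ 5) {x v z : List Ltr} {m : ℕ} (hv : Readable T v)
    (hl : n ≤ v.length) (hm : v.length % n = m) (hz : z <:+ v) (hzl : z.length = n) :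
    Suf n T (x ++ (5, true) :: v) (some (5, true)) m z := by
  refine ⟨v, hv, hl, hm, hz, hzl, Or.inr ⟨(5, true), x, rfl, rfl, ?_⟩⟩
  rintro ⟨i, hi⟩
  exact hT5 i hi.1.symm

theorem suf_K (hn : 4 ≤ n) (h : Ty n T) (b : Bool) (u a : ℕ) (x : List Ltr) :
    Suf n T (x ++ K n T b u a) (some (5, true)) (mm n a) (Z n T b u) := by
  have e : x ++ K n T b u a = (x ++ w0 n T) ++ (5, true) :: (cc n T (mm n a) ++ Z n T b u) := by
    simp [K]
  rw [e]
  refine suf_mk h.ne5 ⟨_, v_rd h.per b u _ (mm_lt hn)⟩ ?_ ?_ ⟨_, rfl⟩ (Z_len b u)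
  · simp [Z_len, cc_len]
  · rw [List.length_append, Z_len, cc_len, Nat.add_mod_right]
    exact Nat.mod_eq_of_lt (mm_lt hn)

theorem suf_KS (hn : 4 ≤ n) (h : Ty n T) (b b' : Bool) (u u' a : ℕ) :
    Suf n T (K n T b u a ++ S n T b' u') (some (5, true)) (mm n a) (Z n T b' u') := by
  have e : K n T b u a ++ S n T b' u' =
      w0 n T ++ (5, true) :: ((cc n T (mm n a) ++ Z n T b u) ++ S n T b' u') := by
    simp [K]
  rw [e]
  refine suf_mk h.ne5 ⟨n - mm n a, ?_⟩ ?_ ?_ ⟨(cc n T (mm n a) ++ Z n T b u) ++ w0 n T, ?_⟩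
    (Z_len b' u')
  · rw [rd_append]
    refine ⟨v_rd h.per b u _ (mm_lt hn), ?_⟩
    have := mm_lt (a := a) hn
    rw [List.length_append, Z_len, cc_len,
      show n - mm n a + (mm n a + n) = (0 + n) + n by omega]
    exact (rd_per h.per _ _).2 ((rd_per h.per _ _).2 (S_rd h.per b' u'))
  · simp [Z_len, cc_len]; omega
  · have e2 : ((cc n T (mm n a) ++ Z n T b u) ++ S n T b' u').length = mm n a + n + n + n := by
      simp [Z_len, cc_len, S, w0_len]; omega
    rw [e2, Nat.add_mod_right, Nat.add_mod_right, Nat.add_mod_right]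
    exact Nat.mod_eq_of_lt (mm_lt hn)
  · simp [S]

theorem suf_S (hn : 4 ≤ n) (h : Ty n T) (b : Bool) (u : ℕ) :
    Suf n T (S n T b u) none 0 (Z n T b u) := by
  have e2 : (S n T b u).length = 0 + n + n := by simp [S, Z_len, w0_len]
  refine ⟨S n T b u, ⟨0, S_rd h.per b u⟩, by omega, ?_, ⟨w0 n T, rfl⟩, Z_len b u,
    Or.inl ⟨rfl, rfl⟩⟩
  rw [e2, Nat.add_mod_right, Nat.add_mod_right, Nat.zero_mod]

theorem commute (hn : 4 ≤ n) (h : Ty n T) (b b' : Bool) (u u' a : ℕ)
    (hz : Zeq n T (some (5, true)) (mm n a) (Z n T b u) (Z n T b' u')) :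
    E n T (S n T b' u' ++ K n T b u a) (K n T b u a ++ S n T b' u') := by
  refine ⟨Or.inr ⟨w0 n T, ?_, ?_, Or.inr w0_len⟩, Or.inr (Or.inr
    ⟨_, _, _, _, suf_K hn h b u a _, suf_KS hn h b b' u u' a, hz⟩)⟩
  · exact ⟨Z n T b' u' ++ K n T b u a, by simp [S]⟩
  · exact ⟨(5, true) :: (cc n T (mm n a) ++ Z n T b u) ++ S n T b' u', by simp [K]⟩

/-- allowed flips at `(b, u)` -/
def Al (n u a : ℕ) : Prop :=
  (a + 1 = u ∧ 2 ≤ u) ∨ (a = u ∧ u ≤ n - 2) ∨ (a = 0 ∧ (u = 1 ∨ u = n - 1))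

theorem Z_bit (b : Bool) (u j : ℕ) :
    bit (Z n T b u) j = if j < n then bt b u j else false := wf_bit _ _ _ _

theorem flip_ex (hn : 4 ≤ n) (b : Bool) (u a : ℕ) (hu1 : 1 ≤ u) (hu2 : u ≤ n - 1)
    (ha : Al n u a) : ∃ (b' : Bool) (u' : ℕ), 1 ≤ u' ∧ u' ≤ n - 1 ∧
      Flip n T (mm n a) (Z n T b u) (Z n T b' u') := by
  have han : a < n := by unfold Al at ha; omega
  rcases ha with ⟨h1, h2⟩ | ⟨h1, h2⟩ | ⟨h1, h2⟩
  · refine ⟨b, u - 1, by omega, by omega, Z_len _ _, Z_len _ _, 0, by omega, Z_rd _ _, Z_rd _ _,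
      ?_, ?_, ?_⟩
    · rw [mm_inv hn han]
      refine Or.inr ⟨by simp [lo]; omega, by omega, ?_, ?_⟩
      · intro j hj1 hj2
        simp only [lo, if_true] at hj1
        rw [Z_bit, if_pos (by omega)]
        simp only [bt]
        rw [if_neg (by omega)]
        simp; omega
      · intro j hj1 hj2
        rw [Z_bit, if_pos (by omega)]
        simp only [bt]
        rw [if_neg (by omega)]
        simp; omega
    · rw [mm_inv hn han, Z_bit, Z_bit, if_pos han, if_pos han]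
      simp only [bt]
      rw [if_neg (by omega), if_neg (by omega)]
      rw [decide_eq_true (by omega : a < u), decide_eq_false (by omega : ¬ a < u - 1)]
      simp
    · intro j hj
      rw [mm_inv hn han] at hj
      rw [Z_bit, Z_bit]
      by_cases hjn : j < n
      · rw [if_pos hjn, if_pos hjn]
        simp only [bt]
        by_cases h0 : j = 0
        · rw [if_pos h0, if_pos h0]
        · rw [if_neg h0, if_neg h0]
          congr 1
          simp only [eq_iff_iff]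
          omega
      · rw [if_neg hjn, if_neg hjn]
  · subst h1
    refine ⟨b, a + 1, by omega, by omega, Z_len _ _, Z_len _ _, 0, by omega, Z_rd _ _, Z_rd _ _,
      ?_, ?_, ?_⟩
    · rw [mm_inv hn han]
      refine Or.inr ⟨by simp [lo]; omega, by omega, ?_, ?_⟩
      · intro j hj1 hj2
        simp only [lo, if_true] at hj1
        rw [Z_bit, if_pos (by omega)]
        simp only [bt]
        rw [if_neg (by omega)]
        simp; omega
      · intro j hj1 hj2
        rw [Z_bit, if_pos (by omega)]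
        simp only [bt]
        rw [if_neg (by omega)]
        simp; omega
    · rw [mm_inv hn han, Z_bit, Z_bit, if_pos han, if_pos han]
      simp only [bt]
      rw [if_neg (by omega), if_neg (by omega)]
      rw [decide_eq_true (by omega : a < a + 1), decide_eq_false (by omega : ¬ a < a)]
      simp
    · intro j hj
      rw [mm_inv hn han] at hj
      rw [Z_bit, Z_bit]
      by_cases hjn : j < n
      · rw [if_pos hjn, if_pos hjn]
        simp only [bt]
        by_cases h0 : j = 0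
        · rw [if_pos h0, if_pos h0]
        · rw [if_neg h0, if_neg h0]
          congr 1
          simp only [eq_iff_iff]
          omega
      · rw [if_neg hjn, if_neg hjn]
  · subst h1
    refine ⟨!b, u, by omega, by omega, Z_len _ _, Z_len _ _, 0, by omega, Z_rd _ _, Z_rd _ _,
      ?_, ?_, ?_⟩
    · rw [mm_inv hn han]
      refine Or.inl ⟨rfl, rfl, ?_⟩
      rcases h2 with h2 | h2
      · right
        intro j hj1 hj2
        rw [Z_bit, if_pos (by omega)]
        simp only [bt]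
        rw [if_neg (by omega)]
        simp; omega
      · left
        intro j hj1 hj2
        rw [Z_bit, if_pos (by omega)]
        simp only [bt]
        rw [if_neg (by omega)]
        simp; omega
    · rw [mm_inv hn han, Z_bit, Z_bit, if_pos han, if_pos han]
      simp [bt]
    · intro j hj
      rw [mm_inv hn han] at hj
      rw [Z_bit, Z_bit]
      simp only [bt]
      rw [if_neg hj, if_neg hj]

theorem Z_ne_of_flip {z z' : List Ltr} {m : ℕ} (h : Flip n T m z z') : z ≠ z' := by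
  obtain ⟨-, -, k, -, -, -, -, h, -⟩ := h
  rintro rfl
  exact h rfl

theorem two_al (hn : 4 ≤ n) (u : ℕ) (hu1 : 1 ≤ u) (hu2 : u ≤ n - 1) :
    ∃ a a' : ℕ, a ≠ a' ∧ a < n ∧ a' < n ∧ Al n u a ∧ Al n u a' := by
  unfold Al
  by_cases h1 : u = 1
  · exact ⟨0, 1, by omega, by omega, by omega, by omega, by omega⟩
  · by_cases h2 : u = n - 1
    · exact ⟨0, n - 2, by omega, by omega, by omega, by omega, by omega⟩
    · exact ⟨u - 1, u, by omega, by omega, by omega, by omega, by omega⟩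

theorem t_CYS : S_CYS := by
  intro n T hn h _ hREQ
  have U := (hREQ n T hn h).2.1
  refine ⟨{s | ∃ b u, 1 ≤ u ∧ u ≤ n - 1 ∧ s = S n T b u},
    {κ | ∃ b u a, 1 ≤ u ∧ u ≤ n - 1 ∧ Al n u a ∧ κ = K n T b u a}, ?_, ?_, ?_, ?_, ?_, ?_, ?_⟩
  · refine (Set.finite_range (fun p : Bool × Fin n => S n T p.1 p.2)).subset ?_
    rintro s ⟨b, u, h1, h2, rfl⟩
    exact ⟨(b, ⟨u, by omega⟩), rfl⟩
  · refine (Set.finite_range (fun p : Bool × Fin n × Fin n => K n T p.1 p.2.1 p.2.2)).subset ?_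
    rintro s ⟨b, u, a, h1, h2, h3, rfl⟩
    exact ⟨(b, ⟨u, by omega⟩, ⟨a, by unfold Al at h3; omega⟩), rfl⟩
  · exact ⟨S n T false 1, false, 1, le_rfl, by omega, rfl⟩
  · rintro s ⟨b, u, h1, h2, rfl⟩
    refine ⟨?_, 0, S_rd h.per b u⟩
    intro e
    have := congrArg List.length e
    simp [S, w0_len, Z_len] at this
    omega
  · rintro s ⟨b, u, a, h1, h2, h3, rfl⟩
    refine ⟨by simp [K], ?_⟩
    rintro ⟨i, hi⟩
    exact rd_ne h.ne5 _ i hi (5, true) (by simp [K]) rfl
  · rintro s ⟨b, u, h1, h2, rfl⟩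
    obtain ⟨a, a', hne, ha, ha', l1, l2⟩ := two_al hn u h1 h2
    refine ⟨K n T b u a, ⟨b, u, a, h1, h2, l1, rfl⟩, K n T b u a', ⟨b, u, a', h1, h2, l2, rfl⟩,
      ?_, commute hn h b b u u a (Or.inl rfl), commute hn h b b u u a' (Or.inl rfl)⟩
    rintro ⟨-, hR⟩
    refine not_re U (suf_K hn h b u a []) (suf_K hn h b u a' []) ?_ hR
    intro e
    apply hne
    rw [← mm_inv hn ha, ← mm_inv hn ha', e]
  · rintro κ ⟨b, u, a, h1, h2, h3, rfl⟩
    obtain ⟨b', u', h4, h5, hF⟩ := flip_ex (T := T) hn b u a h1 h2 h3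
    refine ⟨S n T b u, ⟨b, u, h1, h2, rfl⟩, S n T b' u', ⟨b', u', h4, h5, rfl⟩, ?_,
      commute hn h b b u u a (Or.inl rfl), commute hn h b b' u u' a (Or.inr ⟨rfl, hF⟩)⟩
    rintro ⟨-, hR⟩
    exact not_re' U ⟨0, S_rd h.per b u⟩ (suf_S hn h b u) (suf_S hn h b' u') (Z_ne_of_flip hF) hR

end Pool.Agent.X96.GRC
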